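import Pool.Agent.U637.TP.A1
import Pool.Agent.H373R2.T7.SupE2

/-! Transference, part 3: functions on the primes of mean value zero in the residue classes, and their
exponential sums at the points where a Weyl sum is large. -/

set_option autoImplicit false

namespace Pool.Agent.U637.TP
open Finset Polynomial
open Pool.Agent.H373R2.NB
open Pool.Agent.Helper602.MK (ee PP)
open Pool.Agent.Helper602.MK.N_J5b (ee_add ee_int norm_ee)

/-- `h` has mean value zero over the primes in every residue class modulo `q ≤ Q` -/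
def MZ (Q : ℕ) (h : ℕ → ℝ) : Prop := ∀ q : ℕ, 1 ≤ q → q ≤ Q → ∀ r : ℕ, ∀ ε : ℝ, 0 < ε → ∃ N0 : ℕ, ∀ N : ℕ, N0 ≤ N →
  |∑ p ∈ (Icc 1 N).filter (fun p => p.Prime ∧ p ≡ r [MOD q]), h p| ≤ ε * Nat.primeCounting N

lemma ee_dav (x : ℝ) : ee x = Pool.Agent.H807R2.Dav.ee x := by
  unfold ee Pool.Agent.H807R2.Dav.ee
  congr 1
  ring

/-- the points with a large Weyl sum are close to fractions of small denominator -/
theorem near (f : ℤ[X]) (hd : 1 ≤ f.natDegree) (hl : 0 < f.leadingCoeff) (B : ℕ) (hB : 1 ≤ B) (u : ℝ) (hu : 1 ≤ u) :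
    ∃ Q0 : ℕ, ∀ x M : ℕ, 1 ≤ x → 1 ≤ M → M ≤ B * x ^ f.natDegree → ∀ t : ℕ, t < M →
      (x : ℝ) ≤ u * ‖∑ n ∈ Icc 1 x, ee ((t : ℝ) * ((f.eval (n : ℤ) : ℤ) : ℝ) / M)‖ →
      ∃ q : ℕ, 1 ≤ q ∧ q ≤ Q0 ∧ ∃ a e : ℤ, |e| ≤ Q0 ∧ (q : ℤ) * t = a * M + e := by
  set d := f.natDegree with hdd
  obtain ⟨c, m, hc, hI⟩ := IW_all d hd
  obtain ⟨lc, hlc⟩ : ∃ lc : ℕ, f.leadingCoeff = lc := ⟨f.leadingCoeff.toNat, (Int.toNat_of_nonneg hl.le).symm⟩
  have hlc1 : 1 ≤ lc := by
    rw [hlc] at hl; exact_mod_cast hl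
  set A₀ : ℕ := d.factorial * lc with hA₀
  have hA1 : 1 ≤ A₀ := Nat.mul_pos (Nat.factorial_pos d) hlc1
  set E : ℝ := c * u ^ m with hE
  refine ⟨⌈E * A₀ + E * B⌉₊, fun x M hx hM hMx t htM ht => ?_⟩
  have hx0 : (0 : ℝ) < x := by exact_mod_cast hx
  have hM0 : (0 : ℝ) < M := by exact_mod_cast hM
  have hc1 : (1 : ℝ) ≤ c := by exact_mod_cast hc
  have hE1 : 1 ≤ E := one_le_mul_of_one_le_of_one_le hc1 (one_le_pow₀ hu)
  have hA1r : (1 : ℝ) ≤ A₀ := by exact_mod_cast hA1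
  have hB1r : (1 : ℝ) ≤ B := by exact_mod_cast hB
  have hph := Ph_succ _ _ _ (Ph_poly d f le_rfl ((t : ℝ) / M))
  have hsum : ∑ n ∈ Icc 1 x, ee ((t : ℝ) * ((f.eval (n : ℤ) : ℤ) : ℝ) / M) =
      ∑ n ∈ range x, ee ((fun n : ℕ => (fun n : ℕ => (t : ℝ) / M * ((f.eval (n : ℤ) : ℤ) : ℝ)) (n + 1)) n) := by
    rw [sum_Icc_one]
    apply sum_congr rfl
    intro n _
    congr 1
    ring
  rw [hsum] at ht
  obtain ⟨q, hq1, hq2, a, ha⟩ := hI x u _ _ hx hu hph ht
  have hcoef : f.coeff d = (lc : ℤ) := by rw [hdd, ← hlc]; rfl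
  rw [hcoef] at ha
  have hq0 : (0 : ℝ) < q := by exact_mod_cast hq1
  have e1 : (q : ℝ) * ((t : ℝ) / M * ((d.factorial : ℝ) * ((lc : ℤ) : ℝ))) = q * A₀ * t / M := by
    rw [hA₀]; push_cast; ring
  rw [e1, ← hE] at ha
  set e : ℤ := (q : ℤ) * A₀ * t - a * M with he
  have hMxr : (M : ℝ) ≤ B * (x : ℝ) ^ d := by exact_mod_cast hMx
  have heB : |(e : ℝ)| ≤ E * B := by
    have e2 : (e : ℝ) = (q * A₀ * t / M - a) * M := by
      rw [he]; push_cast; field_simp
    rw [e2, abs_mul, abs_of_pos hM0]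
    calc |(q : ℝ) * A₀ * t / M - a| * M ≤ (E / (x : ℝ) ^ d) * (B * (x : ℝ) ^ d) := by
          apply mul_le_mul ha hMxr hM0.le (by positivity)
      _ = E * B := by field_simp
  refine ⟨q * A₀, Nat.mul_pos hq1 hA1, ?_, a, e, ?_, ?_⟩
  · have h1 : ((q * A₀ : ℕ) : ℝ) ≤ ⌈E * A₀ + E * B⌉₊ := by
      refine le_trans ?_ (Nat.le_ceil _)
      push_cast
      have : (q : ℝ) * A₀ ≤ E * A₀ := mul_le_mul_of_nonneg_right hq2 (by positivity)
      have : 0 ≤ E * B := by positivity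
      linarith
    exact_mod_cast h1
  · have h1 : ((|e| : ℤ) : ℝ) ≤ ((⌈E * A₀ + E * B⌉₊ : ℕ) : ℝ) := by
      refine le_trans ?_ (Nat.le_ceil _)
      rw [Int.cast_abs]
      have : 0 ≤ E * A₀ := by positivity
      linarith
    exact_mod_cast h1
  · rw [he]; push_cast; ring

lemma pc_le (k : ℕ) (hk : 2 ≤ k) : (Nat.primeCounting k : ℝ) ≤ 2 * Real.log 4 * ((k : ℝ) / Real.log k) + Real.sqrt k := by
  have h1 : Nat.primeCounting k ≤ #(PP k) + Nat.sqrt k := by
    have e : Nat.primeCounting k = #((Icc 1 k).filter Nat.Prime) := by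
      rw [Nat.primeCounting, Nat.primeCounting', Nat.count_eq_card_filter_range]
      congr 1
      ext n
      simp only [mem_filter, mem_range, mem_Icc]
      constructor
      · rintro ⟨h1, h2⟩; exact ⟨⟨h2.one_lt.le, by omega⟩, h2⟩
      · rintro ⟨⟨_, h1⟩, h2⟩; exact ⟨by omega, h2⟩
    rw [e]
    have hsub : (Icc 1 k).filter Nat.Prime ⊆ PP k ∪ Icc 1 (Nat.sqrt k) := by
      intro p hp
      rw [mem_filter, mem_Icc] at hp
      rw [mem_union, PP, mem_filter, mem_Icc, mem_Icc]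
      by_cases h : k < p ^ 2
      · exact Or.inl ⟨hp.1, hp.2, h⟩
      · right
        refine ⟨hp.1.1, Nat.le_sqrt'.2 (by omega)⟩
    refine (card_le_card hsub).trans ((card_union_le _ _).trans ?_)
    rw [Nat.card_Icc]
    omega
  have h2 : (Nat.primeCounting k : ℝ) ≤ (#(PP k) : ℝ) + (Nat.sqrt k : ℕ) := by exact_mod_cast h1
  have h3 := Pool.Agent.Helper602.MK.N_J6.j6_card k hk
  have h4 : ((Nat.sqrt k : ℕ) : ℝ) ≤ Real.sqrt k := Real.nat_sqrt_le_real_sqrt
  linarith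

/-- the exponential sums near the fractions of small denominator -/
theorem major (Q0 : ℕ) (h : ℕ → ℝ) (hh : ∀ p, |h p| ≤ 1) (hz : MZ Q0 h) (ε : ℝ) (hε : 0 < ε) :
    ∃ k0 : ℕ, ∀ k : ℕ, k0 ≤ k → ∀ M : ℕ, k < M → ∀ t : ℕ, (∃ q : ℕ, 1 ≤ q ∧ q ≤ Q0 ∧ ∃ a e : ℤ, |e| ≤ Q0 ∧
      (q : ℤ) * t = a * M + e) → ‖∑ p ∈ PP k, (h p : ℂ) * ee ((t : ℝ) * p / M)‖ ≤ ε * (k / Real.log k) := by
  classical
  -- the sums of `h` over the residue classes
  have hlog4 : Real.log 4 ≤ 2 := by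
    have : Real.log 4 = 2 * Real.log 2 := by
      rw [show (4 : ℝ) = 2 ^ 2 by norm_num, Real.log_pow]; push_cast; ring
    have := Real.log_two_lt_d9
    linarith
  set D : ℝ := (1 + 2 * Real.pi * Q0) * (Q0 + 1) with hD
  have hD1 : 0 < D := by positivity
  set ε1 : ℝ := ε / (10 * D) with hε1
  have hε10 : 0 < ε1 := by positivity
  have hN : ∃ N0 : ℕ, ∀ q ∈ Icc 1 Q0, ∀ r < q, ∀ N : ℕ, N0 ≤ N →
      |∑ p ∈ (Icc 1 N).filter (fun p => p.Prime ∧ p ≡ r [MOD q]), h p| ≤ ε1 * Nat.primeCounting N := by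
    have : ∀ q r : ℕ, ∃ N0 : ℕ, 1 ≤ q ∧ q ≤ Q0 → ∀ N : ℕ, N0 ≤ N →
        |∑ p ∈ (Icc 1 N).filter (fun p => p.Prime ∧ p ≡ r [MOD q]), h p| ≤ ε1 * Nat.primeCounting N := by
      intro q r
      by_cases hq : 1 ≤ q ∧ q ≤ Q0
      · obtain ⟨N0, h0⟩ := hz q hq.1 hq.2 r ε1 hε10
        exact ⟨N0, fun _ => h0⟩
      · exact ⟨0, fun h => absurd h hq⟩
    choose N0 hN0 using this
    refine ⟨∑ q ∈ Icc 1 Q0, ∑ r ∈ range q, N0 q r, fun q hq r hr N hNN => hN0 q r (mem_Icc.1 hq) N ?_⟩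
    refine le_trans ?_ hNN
    calc N0 q r ≤ ∑ r ∈ range q, N0 q r := single_le_sum (f := fun r => N0 q r) (fun _ _ => Nat.zero_le _) (mem_range.2 hr)
      _ ≤ _ := single_le_sum (f := fun q => ∑ r ∈ range q, N0 q r) (fun _ _ => Nat.zero_le _) hq
  obtain ⟨N0, hN0⟩ := hN
  -- comparison of `√k` with `k / log k`
  have hsq : ∃ k1 : ℕ, ∀ k : ℕ, k1 ≤ k → Real.sqrt k + 1 ≤ min ε1 1 * (k / Real.log k) ∧
      (N0 : ℝ) ≤ ε1 * (k / Real.log k) := by
    have h1 : Filter.Tendsto (fun k : ℕ => (Real.log k * (Real.sqrt k + 1)) / k) Filter.atTop (nhds 0) := by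
      have h2 : Filter.Tendsto (fun x : ℝ => (Real.log x * (Real.sqrt x + 1)) / x) Filter.atTop (nhds 0) := by
        have h3 : Filter.Tendsto (fun x : ℝ => Real.log x / x ^ (1 / 2 : ℝ)) Filter.atTop (nhds 0) :=
          (isLittleO_log_rpow_atTop (by norm_num)).tendsto_div_nhds_zero
        have h4 : Filter.Tendsto (fun x : ℝ => 2 * (Real.log x / x ^ (1 / 2 : ℝ))) Filter.atTop (nhds 0) := by
          simpa using h3.const_mul 2
        refine squeeze_zero' ?_ ?_ h4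
        · filter_upwards [Filter.eventually_ge_atTop 1] with x hx
          have := Real.log_nonneg hx
          positivity
        · filter_upwards [Filter.eventually_ge_atTop 1] with x hx
          have hl := Real.log_nonneg hx
          have hx0 : 0 < x := by linarith
          have hs : 1 ≤ Real.sqrt x := Real.one_le_sqrt.2 hx
          rw [← Real.sqrt_eq_rpow]
          rw [div_le_iff₀ hx0]
          have h5 : x = Real.sqrt x * Real.sqrt x := (Real.mul_self_sqrt hx0.le).symm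
          calc Real.log x * (Real.sqrt x + 1) ≤ Real.log x * (2 * Real.sqrt x) := by
                apply mul_le_mul_of_nonneg_left _ hl; linarith
            _ = 2 * (Real.log x / Real.sqrt x) * (Real.sqrt x * Real.sqrt x) := by field_simp
            _ = _ := by rw [← h5]
      exact h2.comp tendsto_natCast_atTop_atTop
    have h3 : Filter.Tendsto (fun k : ℕ => (Real.log k * (Real.sqrt k + 1)) / k * (N0 + 1)) Filter.atTop (nhds 0) := by
      simpa using h1.mul_const ((N0 : ℝ) + 1)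
    have h4 := h3.eventually (gt_mem_nhds (show (0 : ℝ) < min ε1 1 by positivity))
    obtain ⟨k1, hk1⟩ := Filter.eventually_atTop.1 h4
    refine ⟨max k1 3, fun k hk => ?_⟩
    have h5 := hk1 k ((le_max_left _ _).trans hk)
    have hk3 : 3 ≤ k := (le_max_right _ _).trans hk
    have hk0 : (0 : ℝ) < k := by exact_mod_cast (by omega : 0 < k)
    have hlk : 0 < Real.log k := Real.log_pos (by exact_mod_cast (by omega : 1 < k))
    have hs0 := Real.sqrt_nonneg (k : ℝ)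
    have h6 : (Real.sqrt k + 1) * (N0 + 1) ≤ min ε1 1 * (k / Real.log k) := by
      rw [← mul_div_assoc, le_div_iff₀ hlk]
      have h7 : Real.log k * (Real.sqrt k + 1) / k * (N0 + 1) * k ≤ min ε1 1 * k :=
        mul_le_mul_of_nonneg_right h5.le hk0.le
      have h8 : Real.log k * (Real.sqrt k + 1) / k * (N0 + 1) * k = (Real.sqrt k + 1) * (N0 + 1) * Real.log k := by
        field_simp
      linarith
    have hN00 : (0 : ℝ) ≤ N0 := Nat.cast_nonneg _
    constructor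
    · refine le_trans ?_ h6
      nlinarith
    · have h9 : min ε1 1 * (k / Real.log k) ≤ ε1 * (k / Real.log k) :=
        mul_le_mul_of_nonneg_right (min_le_left _ _) (by positivity)
      refine le_trans ?_ (h6.trans h9)
      nlinarith
  obtain ⟨k1, hk1⟩ := hsq
  refine ⟨max k1 3, fun k hk M hkM t ⟨q, hq1, hqQ, a, e, he, hqt⟩ => ?_⟩
  obtain ⟨hs1, hs2⟩ := hk1 k ((le_max_left _ _).trans hk)
  have hk3 : 3 ≤ k := (le_max_right _ _).trans hk
  have hk0 : (0 : ℝ) < k := by exact_mod_cast (by omega : 0 < k)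
  have hlk : 0 < Real.log k := Real.log_pos (by exact_mod_cast (by omega : 1 < k))
  have hX : 0 < (k : ℝ) / Real.log k := by positivity
  set X : ℝ := (k : ℝ) / Real.log k with hXdef
  have hpc : (Nat.primeCounting k : ℝ) ≤ 5 * X := by
    have h1 := pc_le k (by omega)
    have h2 : Real.sqrt k ≤ 1 * X := by
      have := mul_le_mul_of_nonneg_right (min_le_right ε1 1) hX.le
      linarith
    have h3 : 2 * Real.log 4 * X ≤ 4 * X := by
      apply mul_le_mul_of_nonneg_right _ hX.le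
      linarith
    linarith
  -- sums in classes up to `y ≤ k`
  set g : ℕ → ℝ := fun n => if n ∈ PP k then h n else 0 with hg
  have hcls : ∀ y : ℕ, y ≤ k → ∀ c : ℕ, |∑ n ∈ (Icc 1 y).filter (fun n => n ≡ c [MOD q]), g n| ≤ 8 * ε1 * X := by
    intro y hy c
    have hmod : ∀ n : ℕ, n ≡ c [MOD q] ↔ n ≡ c % q [MOD q] := by
      intro n
      unfold Nat.ModEq
      rw [Nat.mod_mod]
    have hcq : c % q < q := Nat.mod_lt _ (by omega)
    -- all primes
    have h1 : |∑ p ∈ (Icc 1 y).filter (fun p => p.Prime ∧ p ≡ c % q [MOD q]), h p| ≤ 6 * ε1 * X := by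
      rcases le_total N0 y with h0 | h0
      · refine (hN0 q (mem_Icc.2 ⟨hq1, hqQ⟩) (c % q) hcq y h0).trans ?_
        have h2 : (Nat.primeCounting y : ℝ) ≤ Nat.primeCounting k := by
          exact_mod_cast Nat.monotone_primeCounting hy
        calc ε1 * Nat.primeCounting y ≤ ε1 * (5 * X) := mul_le_mul_of_nonneg_left (h2.trans hpc) hε10.le
          _ ≤ _ := by nlinarith
      · calc |∑ p ∈ (Icc 1 y).filter (fun p => p.Prime ∧ p ≡ c % q [MOD q]), h p| ≤
            ∑ p ∈ (Icc 1 y).filter (fun p => p.Prime ∧ p ≡ c % q [MOD q]), |h p| := abs_sum_le_sum_abs _ _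
          _ ≤ ∑ p ∈ (Icc 1 y).filter (fun p => p.Prime ∧ p ≡ c % q [MOD q]), (1 : ℝ) := sum_le_sum fun p _ => hh p
          _ = (#((Icc 1 y).filter (fun p => p.Prime ∧ p ≡ c % q [MOD q])) : ℝ) := by simp
          _ ≤ (#(Icc 1 y) : ℝ) := by exact_mod_cast card_le_card (filter_subset _ _)
          _ = y := by rw [Nat.card_Icc]; simp
          _ ≤ N0 := by exact_mod_cast h0
          _ ≤ ε1 * X := hs2
          _ ≤ _ := by nlinarith [mul_pos hε10 hX]
    -- the small primes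
    have h2 : |∑ p ∈ ((Icc 1 y).filter (fun p => p.Prime ∧ p ≡ c % q [MOD q])).filter (fun p => ¬ k < p ^ 2), h p| ≤
        ε1 * X := by
      have hsub : ((Icc 1 y).filter (fun p => p.Prime ∧ p ≡ c % q [MOD q])).filter (fun p => ¬ k < p ^ 2) ⊆
          Icc 1 (Nat.sqrt k) := by
        intro p hp
        rw [mem_filter, mem_filter, mem_Icc] at hp
        rw [mem_Icc]
        exact ⟨hp.1.1.1, Nat.le_sqrt'.2 (by have := hp.2; omega)⟩
      calc _ ≤ ∑ p ∈ ((Icc 1 y).filter (fun p => p.Prime ∧ p ≡ c % q [MOD q])).filter (fun p => ¬ k < p ^ 2), |h p| :=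
            abs_sum_le_sum_abs _ _
        _ ≤ ∑ p ∈ ((Icc 1 y).filter (fun p => p.Prime ∧ p ≡ c % q [MOD q])).filter (fun p => ¬ k < p ^ 2), (1 : ℝ) :=
            sum_le_sum fun p _ => hh p
        _ = (#(((Icc 1 y).filter (fun p => p.Prime ∧ p ≡ c % q [MOD q])).filter (fun p => ¬ k < p ^ 2)) : ℝ) := by simp
        _ ≤ (#(Icc 1 (Nat.sqrt k)) : ℝ) := by exact_mod_cast card_le_card hsub
        _ = (Nat.sqrt k : ℕ) := by rw [Nat.card_Icc]; simp
        _ ≤ Real.sqrt k := Real.nat_sqrt_le_real_sqrt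
        _ ≤ _ := by
            have := mul_le_mul_of_nonneg_right (min_le_left ε1 1) hX.le
            linarith
    have h3 : ∑ n ∈ (Icc 1 y).filter (fun n => n ≡ c [MOD q]), g n =
        ∑ p ∈ ((Icc 1 y).filter (fun p => p.Prime ∧ p ≡ c % q [MOD q])).filter (fun p => k < p ^ 2), h p := by
      rw [hg]
      simp only
      rw [← sum_filter]
      congr 1
      ext n
      simp only [mem_filter, mem_Icc, PP, hmod n]
      constructor
      · rintro ⟨⟨⟨h1, h2⟩, h3⟩, ⟨h4, h5⟩, h6, h7⟩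
        exact ⟨⟨⟨h1, h2⟩, h6, h3⟩, h7⟩
      · rintro ⟨⟨⟨h1, h2⟩, h6, h3⟩, h7⟩
        exact ⟨⟨⟨h1, h2⟩, h3⟩, ⟨h1, h2.trans hy⟩, h6, h7⟩
    have h4 := sum_filter_add_sum_filter_not ((Icc 1 y).filter (fun p => p.Prime ∧ p ≡ c % q [MOD q]))
      (fun p => k < p ^ 2) h
    rw [h3]
    have h5 : ∑ p ∈ ((Icc 1 y).filter (fun p => p.Prime ∧ p ≡ c % q [MOD q])).filter (fun p => k < p ^ 2), h p =
        ∑ p ∈ (Icc 1 y).filter (fun p => p.Prime ∧ p ≡ c % q [MOD q]), h p -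
        ∑ p ∈ ((Icc 1 y).filter (fun p => p.Prime ∧ p ≡ c % q [MOD q])).filter (fun p => ¬ k < p ^ 2), h p := by
      linarith
    rw [h5]
    refine (abs_sub _ _).trans ?_
    have : 0 < ε1 * X := by positivity
    linarith
  -- the twisted sums
  have hq0 : (0 : ℝ) < q := by exact_mod_cast hq1
  have hM0 : (0 : ℝ) < M := by exact_mod_cast (by omega : 0 < M)
  have htw : ∀ y : ℕ, y ≤ k → ‖∑ n ∈ Icc 1 y, ((g n : ℝ) : ℂ) * Pool.Agent.H807R2.Dav.ee (n * ((a : ℝ) / q))‖ ≤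
      Q0 * (8 * ε1 * X) := by
    intro y hy
    refine (Pool.Agent.H373R2.T7.rat_twist g y q hq1 a _ (hcls y hy)).trans ?_
    apply mul_le_mul_of_nonneg_right _ (by positivity)
    exact_mod_cast hqQ
  have hab := Pool.Agent.H373R2.T7.abel_ee (fun n => ((g n : ℝ) : ℂ) * Pool.Agent.H807R2.Dav.ee (n * ((a : ℝ) / q)))
    ((e : ℝ) / (q * M)) _ k htw
  have heq : ∑ p ∈ PP k, (h p : ℂ) * ee ((t : ℝ) * p / M) =
      ∑ n ∈ Icc 1 k, ((g n : ℝ) : ℂ) * Pool.Agent.H807R2.Dav.ee (n * ((a : ℝ) / q)) *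
        Pool.Agent.H807R2.Dav.ee (n * ((e : ℝ) / (q * M))) := by
    have hsub : PP k ⊆ Icc 1 k := by
      intro p hp
      rw [PP, mem_filter] at hp
      exact hp.1
    rw [← sum_subset hsub (f := fun n => ((g n : ℝ) : ℂ) * Pool.Agent.H807R2.Dav.ee (n * ((a : ℝ) / q)) *
        Pool.Agent.H807R2.Dav.ee (n * ((e : ℝ) / (q * M))))]
    · apply sum_congr rfl
      intro p hp
      rw [hg]
      simp only
      rw [if_pos hp, mul_assoc, ← ee_dav, ← ee_dav, ← ee_add]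
      congr 2
      have h1 : (q : ℝ) * t = a * M + e := by exact_mod_cast hqt
      have h2 : (t : ℝ) = (a * M + e) / q := by
        rw [eq_div_iff hq0.ne']; linarith
      rw [h2]
      field_simp
    · intro n _ hn
      rw [hg]
      simp only
      rw [if_neg hn]
      simp
  rw [heq]
  refine hab.trans ?_
  have hnorm : (k : ℝ) * ‖Pool.Agent.H807R2.Dav.ee ((e : ℝ) / (q * M)) - 1‖ ≤ 2 * Real.pi * Q0 := by
    have h1 : ‖Pool.Agent.H807R2.Dav.ee ((e : ℝ) / (q * M)) - 1‖ ≤ ‖(2 * Real.pi * ((e : ℝ) / (q * M)) : ℝ)‖ := by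
      have h2 : Pool.Agent.H807R2.Dav.ee ((e : ℝ) / (q * M)) =
          Complex.exp (Complex.I * ((2 * Real.pi * ((e : ℝ) / (q * M)) : ℝ) : ℂ)) := by
        unfold Pool.Agent.H807R2.Dav.ee
        congr 1
        push_cast
        ring
      rw [h2]
      exact Real.norm_exp_I_mul_ofReal_sub_one_le
    have h3 : ‖(2 * Real.pi * ((e : ℝ) / (q * M)) : ℝ)‖ ≤ 2 * Real.pi * (Q0 / M) := by
      rw [Real.norm_eq_abs, abs_mul, abs_of_pos (by positivity : 0 < 2 * Real.pi)]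
      apply mul_le_mul_of_nonneg_left _ (by positivity)
      rw [abs_div, abs_of_pos (by positivity : 0 < (q : ℝ) * M)]
      have h4 : |(e : ℝ)| ≤ Q0 := by
        rw [← Int.cast_abs]
        exact_mod_cast he
      have h5 : (1 : ℝ) ≤ q := by exact_mod_cast hq1
      apply div_le_div₀ (Nat.cast_nonneg _) h4 hM0
      nlinarith
    have hkM' : (k : ℝ) ≤ M := by exact_mod_cast hkM.le
    calc (k : ℝ) * ‖Pool.Agent.H807R2.Dav.ee ((e : ℝ) / (q * M)) - 1‖ ≤ M * (2 * Real.pi * (Q0 / M)) :=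
          mul_le_mul hkM' (h1.trans h3) (norm_nonneg _) hM0.le
      _ = _ := by field_simp
  calc (Q0 : ℝ) * (8 * ε1 * X) * (1 + k * ‖Pool.Agent.H807R2.Dav.ee ((e : ℝ) / (q * M)) - 1‖) ≤
      (Q0 + 1) * (8 * ε1 * X) * (1 + 2 * Real.pi * Q0) := by
        apply mul_le_mul _ _ (by positivity) (by positivity)
        · apply mul_le_mul_of_nonneg_right _ (by positivity)
          linarith
        · linarith
    _ = 8 * D * ε1 * X := by rw [hD]; ring
    _ ≤ ε * X := by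
        apply mul_le_mul_of_nonneg_right _ hX.le
        rw [hε1]
        have : 8 * D * (ε / (10 * D)) = (8 / 10) * ε := by field_simp
        rw [this]
        linarith

end Pool.Agent.U637.TP
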