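import Mathlib
import Pool.Agent.H373R2.NB.Restr
import Pool.Agent.H373R2.NB.WeylSum

/-! Transference, part 1: the second moment over the shifts on `ZMod M`, and the large sieve for few points
with bounded weights. -/

set_option autoImplicit false

namespace Pool.Agent.U637.TP
open Finset
open Pool.Agent.H373R2.NB
open Pool.Agent.Helper602.MK (ee PP)
open Pool.Agent.Helper602.MK.N_J5b (normsq_sum)

/-- the second moment over the shifts -/
theorem sum_shift_sq {M : ℕ} [NeZero M] {ι : Type*} (u : ZMod M → ℝ) (s : Finset ι) (c : ι → ZMod M) :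
    (M : ℝ) * ∑ a : ZMod M, (∑ i ∈ s, u (a + c i)) ^ 2 =
      ∑ ξ, ‖hat u ξ‖ ^ 2 * ‖∑ i ∈ s, (ZMod.stdAddChar (ξ * c i) : ℂ)‖ ^ 2 := by
  have h1 : ∑ a : ZMod M, (∑ i ∈ s, u (a + c i)) ^ 2 = ∑ i ∈ s, ∑ j ∈ s, cor u (c i - c j) := by
    have : ∀ a : ZMod M, (∑ i ∈ s, u (a + c i)) ^ 2 = ∑ i ∈ s, ∑ j ∈ s, u (a + c i) * u (a + c j) := by
      intro a
      rw [sq, sum_mul_sum]
    rw [sum_congr rfl fun a _ => this a, sum_comm]
    apply sum_congr rfl
    intro i _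
    rw [sum_comm]
    apply sum_congr rfl
    intro j _
    unfold cor
    rw [← Equiv.sum_comp (Equiv.addRight (c j))
      (fun m => u m * u (m + (c i - c j)))]
    apply sum_congr rfl
    intro a _
    simp only [Equiv.coe_addRight]
    rw [show a + c j + (c i - c j) = a + c i by ring, mul_comm]
  have h2 : (((M : ℝ) * ∑ i ∈ s, ∑ j ∈ s, cor u (c i - c j) : ℝ) : ℂ) =
      ((∑ ξ, ‖hat u ξ‖ ^ 2 * ‖∑ i ∈ s, (ZMod.stdAddChar (ξ * c i) : ℂ)‖ ^ 2 : ℝ) : ℂ) := by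
    push_cast
    rw [mul_sum]
    have h3 : ∀ i ∈ s, (M : ℂ) * ∑ j ∈ s, ((cor u (c i - c j) : ℝ) : ℂ) =
        ∑ j ∈ s, ∑ ξ, ((‖hat u ξ‖ ^ 2 : ℝ) : ℂ) * ZMod.stdAddChar (ξ * (c i - c j)) := by
      intro i _
      rw [mul_sum]
      apply sum_congr rfl
      intro j _
      exact cor_eq u _
    rw [sum_congr rfl h3]
    have h4 : ∀ ξ : ZMod M, (‖hat u ξ‖ : ℂ) ^ 2 * (‖∑ i ∈ s, (ZMod.stdAddChar (ξ * c i) : ℂ)‖ : ℂ) ^ 2 =
        ∑ i ∈ s, ∑ j ∈ s, ((‖hat u ξ‖ ^ 2 : ℝ) : ℂ) * ZMod.stdAddChar (ξ * (c i - c j)) := by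
      intro ξ
      have h5 := normsq_sum s (fun i => (ZMod.stdAddChar (ξ * c i) : ℂ))
      push_cast at h5
      rw [h5, mul_sum]
      apply sum_congr rfl
      intro i _
      rw [mul_sum]
      apply sum_congr rfl
      intro j _
      rw [chi_conj, ← AddChar.map_add_eq_mul, mul_sub, sub_eq_add_neg]
      push_cast
      rfl
    rw [sum_congr rfl fun ξ _ => h4 ξ]
    refine Eq.trans ?_ (sum_comm' (s := s) (t := fun _ => univ) (t' := univ) (s' := fun _ => s)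
      (fun x y => by simp))
    apply sum_congr rfl
    intro i _
    rw [sum_comm]
  rw [h1]
  exact_mod_cast h2

/-- a weight on the primes in `(√k, k]` -/
noncomputable def wt (h : ℕ → ℝ) (k M : ℕ) (m : ZMod M) : ℝ := if m.val ∈ PP k then h m.val else 0

lemma hat_wt {M : ℕ} [NeZero M] (h : ℕ → ℝ) (k : ℕ) (hk : k < M) (ξ : ZMod M) :
    hat (wt h k M) ξ = ∑ p ∈ PP k, (h p : ℂ) * ee ((ξ.val : ℝ) * p / M) := by
  have hsub : PP k ⊆ range M := by
    intro p hp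
    rw [PP, mem_filter, mem_Icc] at hp
    exact mem_range.2 (by omega)
  have h1 : hat (wt h k M) ξ =
      ∑ m : ZMod M, (fun t : ℕ => if t ∈ PP k then (h t : ℂ) * ee ((ξ.val : ℝ) * t / M) else 0) m.val := by
    unfold hat
    apply sum_congr rfl
    intro m _
    simp only [wt]
    split_ifs with h
    · rw [← chi_eq, ZMod.natCast_zmod_val]
    · rw [Complex.ofReal_zero, zero_mul]
  rw [h1, sum_val (fun t : ℕ => if t ∈ PP k then (h t : ℂ) * ee ((ξ.val : ℝ) * t / M) else 0), ← sum_filter]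
  congr 1
  ext p
  rw [mem_filter]
  exact ⟨fun h => h.2, fun h => ⟨hsub h, h⟩⟩

/-- large sieve for few points on `ZMod M`, bounded weights -/
theorem few_wt : ∃ C : ℝ, 1 ≤ C ∧ ∃ k0 : ℕ, 2 ≤ k0 ∧ ∀ k : ℕ, k0 ≤ k → ∀ M : ℕ, [NeZero M] → k < M → M ≤ 100 * k →
    ∀ h : ℕ → ℝ, (∀ p, |h p| ≤ 1) → ∀ X : Finset (ZMod M), X.Nonempty →
      ∑ ξ ∈ X, ‖hat (wt h k M) ξ‖ ^ 2 * (Real.log k / k) ^ 2 ≤ C * Real.log (2 * #X) := by
  obtain ⟨C, hC, k0, hk0, h5⟩ := mj5
  have hlog4 : 1 ≤ Real.log 4 := by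
    rw [Real.le_log_iff_exp_le (by norm_num)]
    have := Real.exp_one_lt_d9
    linarith
  refine ⟨C * (2 * Real.log 4), by nlinarith, k0, hk0, ?_⟩
  intro k hk M hM hkM hM100 h hh X hX
  have hk2 : 2 ≤ k := hk0.trans hk
  have hkpos : (0 : ℝ) < k := by exact_mod_cast (by omega : 0 < k)
  have hlk : 0 < Real.log k := Real.log_pos (by exact_mod_cast hk2)
  have h6 := h5 k hk M hkM.le hM100 (X.image (fun m => m.val)) (by
    intro t ht
    rw [mem_image] at ht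
    obtain ⟨m, _, rfl⟩ := ht
    exact mem_range.2 (ZMod.val_lt m)) (hX.image _) (fun p => (h p : ℂ))
  rw [sum_image (fun a _ b _ h => ZMod.val_injective M h), card_image_of_injective _ (ZMod.val_injective M)] at h6
  have h7 : ∑ ξ ∈ X, ‖hat (wt h k M) ξ‖ ^ 2 ≤ C * (k / Real.log k) * Real.log (2 * #X) * (2 * Real.log 4 * (k / Real.log k)) := by
    calc ∑ ξ ∈ X, ‖hat (wt h k M) ξ‖ ^ 2 = ∑ ξ ∈ X, ‖∑ p ∈ PP k, (h p : ℂ) * ee ((ξ.val : ℝ) * p / M)‖ ^ 2 := by
          apply sum_congr rfl; intro ξ _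
          rw [hat_wt h k hkM]
      _ ≤ _ := h6
      _ ≤ _ := by
          have hc : (1 : ℝ) ≤ #X := by exact_mod_cast card_pos.2 hX
          have hl : 0 ≤ Real.log (2 * #X) := Real.log_nonneg (by linarith)
          apply mul_le_mul_of_nonneg_left _ (by positivity)
          calc ∑ p ∈ PP k, ‖(h p : ℂ)‖ ^ 2 ≤ ∑ p ∈ PP k, (1 : ℝ) := by
                apply sum_le_sum
                intro p _
                rw [Complex.norm_real, Real.norm_eq_abs]
                exact pow_le_one₀ (abs_nonneg _) (hh p)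
            _ = (#(PP k) : ℝ) := by simp
            _ ≤ _ := Pool.Agent.Helper602.MK.N_J6.j6_card k hk2
  rw [← sum_mul]
  calc (∑ ξ ∈ X, ‖hat (wt h k M) ξ‖ ^ 2) * (Real.log k / k) ^ 2 ≤
      (C * (k / Real.log k) * Real.log (2 * #X) * (2 * Real.log 4 * (k / Real.log k))) * (Real.log k / k) ^ 2 :=
        mul_le_mul_of_nonneg_right h7 (by positivity)
    _ = _ := by field_simp

end Pool.Agent.U637.TP
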