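import Mathlib

/-! Transference, part 2: the Weyl sums are small at most points, in the sense of the sum
`∑ u v ^ 2`. -/

set_option autoImplicit false

namespace Pool.Agent.U637.TP
open Finset

lemma layer (v : ℝ) (hv : 0 ≤ v) (J : ℕ) (hJ : v < (1 / 2) ^ J) (N : ℕ) (hN : J ≤ N) :
    v ^ 2 ≤ ∑ j ∈ Ico J N, (1 / 4 : ℝ) ^ j * (if (1 / 2 : ℝ) ^ (j + 1) < v then 1 else 0) + (1 / 4 : ℝ) ^ N := by
  induction N, hN using Nat.le_induction with
  | base =>
    rw [Ico_self, sum_empty, zero_add]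
    calc v ^ 2 ≤ ((1 / 2 : ℝ) ^ J) ^ 2 := pow_le_pow_left₀ hv hJ.le 2
      _ = _ := by rw [← pow_mul, mul_comm, pow_mul]; norm_num
  | succ N hN ih =>
    rw [sum_Ico_succ_top hN]
    by_cases h : (1 / 2 : ℝ) ^ (N + 1) < v
    · rw [if_pos h, mul_one]
      have : (0 : ℝ) < (1 / 4 : ℝ) ^ (N + 1) := by positivity
      linarith
    · rw [if_neg h, mul_zero, add_zero]
      push Not at h
      have h1 : v ^ 2 ≤ ((1 / 2 : ℝ) ^ (N + 1)) ^ 2 := pow_le_pow_left₀ hv h 2
      have h2 : ((1 / 2 : ℝ) ^ (N + 1)) ^ 2 = (1 / 4 : ℝ) ^ (N + 1) := by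
        rw [← pow_mul, mul_comm, pow_mul]; norm_num
      have h3 : 0 ≤ ∑ j ∈ Ico J N, (1 / 4 : ℝ) ^ j * (if (1 / 2 : ℝ) ^ (j + 1) < v then 1 else 0) :=
        sum_nonneg fun j _ => mul_nonneg (by positivity) (by split_ifs <;> norm_num)
      linarith

lemma geo (J N : ℕ) : ∑ j ∈ Ico J N, (1 / 2 : ℝ) ^ j ≤ 2 * (1 / 2) ^ J := by
  rcases le_total N J with h | h
  · rw [Ico_eq_empty_of_le h, sum_empty]; positivity
  · have key : ∑ j ∈ Ico J N, (1 / 2 : ℝ) ^ j = 2 * (1 / 2) ^ J - 2 * (1 / 2) ^ N := by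
      induction N, h using Nat.le_induction with
      | base => simp
      | succ N hN ih => rw [sum_Ico_succ_top hN, ih, pow_succ]; ring
    rw [key]
    have : (0 : ℝ) < (1 / 2 : ℝ) ^ N := by positivity
    linarith

/-- the points at which `v` is small contribute little -/
theorem small_points {ι : Type*} [DecidableEq ι] (R : Finset ι) (u v : ι → ℝ) (hu : ∀ ξ, 0 ≤ u ξ) (hv : ∀ ξ, 0 ≤ v ξ)
    (C : ℝ) (hC : 1 ≤ C) (K m : ℕ) (hK : 1 ≤ K)
    (h1 : ∀ X : Finset ι, X ⊆ R → X.Nonempty → ∑ ξ ∈ X, u ξ ≤ C * Real.log (2 * #X))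
    (h2 : ∀ w : ℝ, 1 ≤ w → (#(R.filter fun ξ => 1 ≤ w * v ξ) : ℝ) ≤ K * w ^ m) (J : ℕ) :
    ∑ ξ ∈ R.filter (fun ξ => v ξ < (1 / 2) ^ J), u ξ * v ξ ^ 2 ≤ 2 * C * (2 * K + m + 1) * (1 / 2) ^ J := by
  classical
  rcases R.eq_empty_or_nonempty with hR | hR
  · subst hR
    rw [filter_empty, sum_empty]
    positivity
  set n : ℕ := #R with hn
  have hn1 : 1 ≤ n := card_pos.2 hR
  set N : ℕ := J + n with hN
  have hpt : ∀ ξ ∈ R.filter (fun ξ => v ξ < (1 / 2) ^ J), u ξ * v ξ ^ 2 ≤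
      ∑ j ∈ Ico J N, (1 / 4 : ℝ) ^ j * (u ξ * (if (1 / 2 : ℝ) ^ (j + 1) < v ξ then 1 else 0)) + (1 / 4 : ℝ) ^ N * u ξ := by
    intro ξ hξ
    rw [mem_filter] at hξ
    have h3 := mul_le_mul_of_nonneg_left (layer (v ξ) (hv ξ) J hξ.2 N (by omega)) (hu ξ)
    refine h3.trans (le_of_eq ?_)
    rw [mul_add, mul_sum]
    congr 1
    · apply sum_congr rfl
      intro j _
      ring
    · ring
  have hlay : ∀ j : ℕ, ∑ ξ ∈ R, u ξ * (if (1 / 2 : ℝ) ^ (j + 1) < v ξ then 1 else 0) ≤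
      C * (2 * K + m) * 2 ^ j := by
    intro j
    have e1 : ∑ ξ ∈ R, u ξ * (if (1 / 2 : ℝ) ^ (j + 1) < v ξ then 1 else 0) =
        ∑ ξ ∈ R.filter (fun ξ => (1 / 2 : ℝ) ^ (j + 1) < v ξ), u ξ := by
      rw [sum_filter]
      apply sum_congr rfl
      intro ξ _
      split_ifs <;> simp
    rw [e1]
    rcases (R.filter (fun ξ => (1 / 2 : ℝ) ^ (j + 1) < v ξ)).eq_empty_or_nonempty with h0 | h0
    · rw [h0, sum_empty]; positivity
    · refine (h1 _ (filter_subset _ _) h0).trans ?_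
      rw [mul_assoc]
      apply mul_le_mul_of_nonneg_left _ (by linarith)
      have hc1 : (1 : ℝ) ≤ #(R.filter (fun ξ => (1 / 2 : ℝ) ^ (j + 1) < v ξ)) := by exact_mod_cast card_pos.2 h0
      have hc : (#(R.filter (fun ξ => (1 / 2 : ℝ) ^ (j + 1) < v ξ)) : ℝ) ≤ K * ((2 : ℝ) ^ (j + 1)) ^ m := by
        refine le_trans ?_ (h2 ((2 : ℝ) ^ (j + 1)) (one_le_pow₀ (by norm_num)))
        apply Nat.cast_le.2
        apply card_le_card
        intro ξ hξ
        rw [mem_filter] at hξ ⊢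
        refine ⟨hξ.1, ?_⟩
        have h4 : (2 : ℝ) ^ (j + 1) * (1 / 2) ^ (j + 1) = 1 := by
          rw [← mul_pow]; norm_num
        have h5 : (0 : ℝ) < 2 ^ (j + 1) := by positivity
        nlinarith [hξ.2]
      have hKr : (1 : ℝ) ≤ K := by exact_mod_cast hK
      calc Real.log (2 * #(R.filter (fun ξ => (1 / 2 : ℝ) ^ (j + 1) < v ξ))) ≤
          Real.log (2 * (K * ((2 : ℝ) ^ (j + 1)) ^ m)) := Real.log_le_log (by positivity) (by linarith)
        _ = Real.log (2 * K) + m * ((j + 1) * Real.log 2) := by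
            rw [← mul_assoc, Real.log_mul (by positivity) (by positivity), Real.log_pow, Real.log_pow]
            push_cast
            ring
        _ ≤ 2 * K + m * ((j + 1) * 1) := by
            have h6 : Real.log (2 * K) ≤ 2 * K := (Real.log_le_sub_one_of_pos (by positivity)).trans (by linarith)
            have h7 : Real.log 2 ≤ 1 := Real.log_two_lt_d9.le.trans (by norm_num)
            have h8 : (m : ℝ) * ((j + 1) * Real.log 2) ≤ m * ((j + 1) * 1) := by gcongr
            linarith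
        _ ≤ (2 * K + m) * 2 ^ j := by
            have h9 : (j : ℝ) + 1 ≤ 2 ^ j := by
              have := Nat.lt_two_pow_self (n := j)
              exact_mod_cast this
            have h10 : (1 : ℝ) ≤ 2 ^ j := one_le_pow₀ (by norm_num)
            have h11 : (m : ℝ) * ((j + 1) * 1) ≤ m * 2 ^ j := by
              rw [mul_one]
              exact mul_le_mul_of_nonneg_left h9 (Nat.cast_nonneg _)
            nlinarith
  have htot : ∑ ξ ∈ R, u ξ ≤ C * (2 * n) := by
    refine (h1 R (Subset.refl _) hR).trans ?_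
    apply mul_le_mul_of_nonneg_left _ (by linarith)
    have : (0 : ℝ) < n := by exact_mod_cast hn1
    exact (Real.log_le_sub_one_of_pos (by positivity)).trans (by linarith)
  calc ∑ ξ ∈ R.filter (fun ξ => v ξ < (1 / 2) ^ J), u ξ * v ξ ^ 2 ≤
      ∑ ξ ∈ R.filter (fun ξ => v ξ < (1 / 2) ^ J),
        (∑ j ∈ Ico J N, (1 / 4 : ℝ) ^ j * (u ξ * (if (1 / 2 : ℝ) ^ (j + 1) < v ξ then 1 else 0)) + (1 / 4 : ℝ) ^ N * u ξ) :=
        sum_le_sum hpt
    _ ≤ ∑ ξ ∈ R,
        (∑ j ∈ Ico J N, (1 / 4 : ℝ) ^ j * (u ξ * (if (1 / 2 : ℝ) ^ (j + 1) < v ξ then 1 else 0)) + (1 / 4 : ℝ) ^ N * u ξ) := by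
        apply sum_le_sum_of_subset_of_nonneg (filter_subset _ _)
        intro ξ _ _
        apply add_nonneg
        · apply sum_nonneg
          intro j _
          apply mul_nonneg (by positivity)
          apply mul_nonneg (hu ξ)
          split_ifs <;> norm_num
        · exact mul_nonneg (by positivity) (hu ξ)
    _ = ∑ j ∈ Ico J N, (1 / 4 : ℝ) ^ j * ∑ ξ ∈ R, (u ξ * (if (1 / 2 : ℝ) ^ (j + 1) < v ξ then 1 else 0)) +
        (1 / 4 : ℝ) ^ N * ∑ ξ ∈ R, u ξ := by
        rw [sum_add_distrib, sum_comm, ← mul_sum]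
        congr 1
        apply sum_congr rfl
        intro j _
        rw [mul_sum]
    _ ≤ ∑ j ∈ Ico J N, (1 / 4 : ℝ) ^ j * (C * (2 * K + m) * 2 ^ j) + (1 / 4 : ℝ) ^ N * (C * (2 * n)) := by
        apply add_le_add
        · apply sum_le_sum
          intro j _
          exact mul_le_mul_of_nonneg_left (hlay j) (by positivity)
        · exact mul_le_mul_of_nonneg_left htot (by positivity)
    _ = C * (2 * K + m) * ∑ j ∈ Ico J N, (1 / 2 : ℝ) ^ j + (1 / 4 : ℝ) ^ N * (C * (2 * n)) := by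
        rw [mul_sum]
        congr 1
        apply sum_congr rfl
        intro j _
        have : (1 / 4 : ℝ) ^ j * 2 ^ j = (1 / 2) ^ j := by rw [← mul_pow]; norm_num
        rw [← this]; ring
    _ ≤ C * (2 * K + m) * (2 * (1 / 2) ^ J) + 2 * C * (1 / 2) ^ J := by
        apply add_le_add
        · exact mul_le_mul_of_nonneg_left (geo J N) (by positivity)
        · have h12 : (n : ℝ) ≤ 4 ^ n := by
            have h13 : n < 4 ^ n := Nat.lt_pow_self (by norm_num)
            exact_mod_cast h13.le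
          have h14 : (1 / 4 : ℝ) ^ N * n ≤ (1 / 2) ^ J := by
            rw [hN, pow_add]
            have h15 : (1 / 4 : ℝ) ^ n * n ≤ 1 := by
              rw [one_div, inv_pow, inv_mul_le_iff₀ (by positivity), mul_one]
              exact h12
            have h16 : (1 / 4 : ℝ) ^ J ≤ (1 / 2) ^ J := pow_le_pow_left₀ (by norm_num) (by norm_num) J
            calc (1 / 4 : ℝ) ^ J * (1 / 4) ^ n * n = (1 / 4 : ℝ) ^ J * ((1 / 4) ^ n * n) := by ring
              _ ≤ (1 / 2) ^ J * 1 := mul_le_mul h16 h15 (by positivity) (by positivity)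
              _ = _ := mul_one _
          calc (1 / 4 : ℝ) ^ N * (C * (2 * n)) = 2 * C * ((1 / 4 : ℝ) ^ N * n) := by ring
            _ ≤ _ := mul_le_mul_of_nonneg_left h14 (by positivity)
    _ = _ := by ring

end Pool.Agent.U637.TP
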