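import Pool.Agent.U637.TP.A4

/-! Transference, part 5: almost all constant terms, one sum. -/

set_option autoImplicit false

namespace Pool.Agent.U637.TP
open Finset Polynomial
open Pool.Agent.Helper602.MK (PP)
open Pool.Agent.H373R2.T7 (cf abs_eval_le)

/-- the weight `h` at the primes, on the integers -/
noncomputable def pv (h : ℕ → ℝ) (z : ℤ) : ℝ := if z.toNat.Prime then h z.toNat else 0

lemma log_sqrt (c δ : ℝ) (hδ : 0 < δ) : ∃ x0 : ℕ, ∀ x : ℕ, x0 ≤ x → Real.log x * c ≤ δ * Real.sqrt x := by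
  have h2 : Filter.Tendsto (fun x : ℝ => Real.log x / x ^ (1 / 2 : ℝ)) Filter.atTop (nhds 0) :=
    (isLittleO_log_rpow_atTop (by norm_num)).tendsto_div_nhds_zero
  have h3 : Filter.Tendsto (fun x : ℕ => Real.log (x : ℝ) / (x : ℝ) ^ (1 / 2 : ℝ) * c) Filter.atTop (nhds 0) := by
    simpa using (h2.comp tendsto_natCast_atTop_atTop).mul_const c
  obtain ⟨x0, h4⟩ := Filter.eventually_atTop.1 (h3.eventually (gt_mem_nhds hδ))
  refine ⟨max x0 1, fun x hx => ?_⟩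
  have h5 := h4 x ((le_max_left _ _).trans hx)
  have hx1 : (0 : ℝ) < x := by exact_mod_cast (by have := (le_max_right _ _).trans hx; omega : 0 < x)
  rw [← Real.sqrt_eq_rpow] at h5
  have hs : 0 < Real.sqrt x := Real.sqrt_pos.2 hx1
  have h6 : Real.log x / Real.sqrt x * c * Real.sqrt x ≤ δ * Real.sqrt x := mul_le_mul_of_nonneg_right h5.le hs.le
  have h7 : Real.log x / Real.sqrt x * c * Real.sqrt x = Real.log x * c := by field_simp
  linarith

/-- the small primes -/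
lemma small_primes (g : ℕ → ℤ) (k A x : ℕ) :
    ∑ a ∈ Icc 1 A, (#((Icc 1 x).filter fun n => ((a : ℤ) + g n).toNat.Prime ∧ ((a : ℤ) + g n).toNat ^ 2 ≤ k) : ℝ) ≤
      x * Real.sqrt k := by
  have h1 : ∑ a ∈ Icc 1 A, #((Icc 1 x).filter fun n => ((a : ℤ) + g n).toNat.Prime ∧ ((a : ℤ) + g n).toNat ^ 2 ≤ k) =
      ∑ n ∈ Icc 1 x, #((Icc 1 A).filter fun a : ℕ => ((a : ℤ) + g n).toNat.Prime ∧ ((a : ℤ) + g n).toNat ^ 2 ≤ k) := by
    simp only [card_filter]
    rw [sum_comm]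
  have h2 : ∀ n ∈ Icc 1 x, #((Icc 1 A).filter fun a : ℕ => ((a : ℤ) + g n).toNat.Prime ∧ ((a : ℤ) + g n).toNat ^ 2 ≤ k) ≤
      Nat.sqrt k := by
    intro n _
    rw [← Nat.card_Icc 1 (Nat.sqrt k) |>.trans (by omega : Nat.sqrt k + 1 - 1 = Nat.sqrt k)]
    apply card_le_card_of_injOn (fun a : ℕ => ((a : ℤ) + g n).toNat)
    · intro a ha
      rw [mem_coe, mem_filter] at ha
      rw [mem_coe, mem_Icc]
      exact ⟨ha.2.1.one_lt.le, Nat.le_sqrt'.2 ha.2.2⟩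
    · intro a ha b hb hab
      rw [mem_coe, mem_filter] at ha hb
      have e1 := ha.2.1.one_lt
      have e2 := hb.2.1.one_lt
      simp only at hab
      omega
  have h3 : ∑ a ∈ Icc 1 A, #((Icc 1 x).filter fun n => ((a : ℤ) + g n).toNat.Prime ∧ ((a : ℤ) + g n).toNat ^ 2 ≤ k) ≤
      x * Nat.sqrt k := by
    rw [h1]
    refine (sum_le_sum h2).trans ?_
    rw [sum_const, Nat.card_Icc, smul_eq_mul]
    simp
  calc _ ≤ ((x * Nat.sqrt k : ℕ) : ℝ) := by exact_mod_cast h3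
    _ ≤ x * Real.sqrt k := by
        push_cast
        exact mul_le_mul_of_nonneg_left Real.nat_sqrt_le_real_sqrt (Nat.cast_nonneg _)

/-- Markov -/
lemma markov {ι : Type*} [DecidableEq ι] (s : Finset ι) (F : ι → ℝ) (hF : ∀ i ∈ s, 0 ≤ F i) (t T : ℝ) (ht : 0 < t)
    (hT : ∑ i ∈ s, F i ≤ T) (P : ι → Prop) [DecidablePred P] (hP : ∀ i ∈ s, P i → t ≤ F i) :
    (#(s.filter P) : ℝ) ≤ T / t := by
  rw [le_div_iff₀ ht]
  calc (#(s.filter P) : ℝ) * t = ∑ i ∈ s.filter P, t := by rw [sum_const, nsmul_eq_mul]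
    _ ≤ ∑ i ∈ s.filter P, F i := sum_le_sum fun i hi => hP i (mem_filter.1 hi).1 (mem_filter.1 hi).2
    _ ≤ ∑ i ∈ s, F i := sum_le_sum_of_subset_of_nonneg (filter_subset _ _) fun i hi _ => hF i hi
    _ ≤ T := hT

/-- almost all constant terms, one sum -/
theorem single (f : ℤ[X]) (hd : 1 ≤ f.natDegree)
    (hl : 0 < f.leadingCoeff) (B : ℕ) (hB : 1 ≤ B) (ε : ℝ) (hε : 0 < ε) :
    ∃ Q0 : ℕ, ∀ h : ℕ → ℝ, (∀ p, |h p| ≤ 1) → MZ Q0 h → ∃ x0 : ℕ, ∀ x : ℕ, x0 ≤ x →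
      ∀ σ : ℤ, (σ = 1 ∨ σ = -1) → ∀ A : ℕ, A ≤ B * x ^ f.natDegree →
      (#((Icc 1 A).filter fun a : ℕ => ε * (x / Real.log x) <
        |∑ n ∈ Icc 1 x, pv h ((a : ℤ) + σ * f.eval (n : ℤ))|) : ℝ) ≤ ε * (x : ℝ) ^ f.natDegree := by
  classical
  set d := f.natDegree with hdd
  obtain ⟨Q0, h0⟩ := l2 f hd hl B hB (ε ^ 3 / 8) (by positivity)
  refine ⟨Q0, fun h hh hz => ?_⟩
  obtain ⟨x1, h1⟩ := h0 h hh hz
  set K0 : ℕ := B + cf f with hK0
  obtain ⟨x2, h2⟩ := log_sqrt (Real.sqrt K0) (ε ^ 2 / 4) (by positivity)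
  refine ⟨max (max x1 x2) 2, fun x hx σ hσ A hA => ?_⟩
  have hx2 : 2 ≤ x := (le_max_right _ _).trans hx
  have hxx1 : x1 ≤ x := (le_max_left _ _).trans ((le_max_left _ _).trans hx)
  have hxx2 : x2 ≤ x := (le_max_right _ _).trans ((le_max_left _ _).trans hx)
  have hl2 := h1 x hxx1 σ hσ A hA
  have hls := h2 x hxx2
  set k : ℕ := K0 * x ^ d with hk
  have hxr : (0 : ℝ) < x := by exact_mod_cast (by omega : 0 < x)
  have hlx : 0 < Real.log x := Real.log_pos (by exact_mod_cast (by omega : 1 < x))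
  have hX : 0 < (x : ℝ) / Real.log x := by positivity
  have hcf : ∀ n ∈ Icc 1 x, |f.eval (n : ℤ)| ≤ ((cf f * x ^ d : ℕ) : ℤ) := by
    intro n hn
    rw [mem_Icc] at hn
    refine (abs_eval_le f n hn.1).trans ?_
    push_cast
    apply mul_le_mul_of_nonneg_left _ (by positivity)
    have : (n : ℤ) ≤ x := by exact_mod_cast hn.2
    exact pow_le_pow_left₀ (by positivity) this _
  set N : ℕ → ℝ := fun a => (#((Icc 1 x).filter fun n : ℕ => ((a : ℤ) + σ * f.eval (n : ℤ)).toNat.Prime ∧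
    ((a : ℤ) + σ * f.eval (n : ℤ)).toNat ^ 2 ≤ k) : ℝ) with hN
  have hdiff : ∀ a ∈ Icc 1 A, |∑ n ∈ Icc 1 x, pv h ((a : ℤ) + σ * f.eval (n : ℤ))| ≤
      |∑ n ∈ Icc 1 x, hv h k ((a : ℤ) + σ * f.eval (n : ℤ))| + N a := by
    intro a ha
    rw [mem_Icc] at ha
    have e1 : ∑ n ∈ Icc 1 x, pv h ((a : ℤ) + σ * f.eval (n : ℤ)) =
        ∑ n ∈ Icc 1 x, hv h k ((a : ℤ) + σ * f.eval (n : ℤ)) +
        ∑ n ∈ Icc 1 x, (pv h ((a : ℤ) + σ * f.eval (n : ℤ)) - hv h k ((a : ℤ) + σ * f.eval (n : ℤ))) := by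
      rw [← sum_add_distrib]
      apply sum_congr rfl
      intro n _
      ring
    rw [e1]
    refine (abs_add_le _ _).trans ?_
    apply add_le_add le_rfl
    refine (abs_sum_le_sum_abs _ _).trans ?_
    rw [hN]
    simp only
    rw [card_filter]
    push_cast
    apply sum_le_sum
    intro n hn
    have h3 : ((a : ℤ) + σ * f.eval (n : ℤ)) ≤ k := by
      have h4 : |σ * f.eval (n : ℤ)| ≤ ((cf f * x ^ d : ℕ) : ℤ) := by
        rw [abs_mul]
        have : |σ| = 1 := by rcases hσ with rfl | rfl <;> rfl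
        rw [this, one_mul]
        exact hcf n hn
      have h5 := (abs_le.1 h4).2
      have h6 : (a : ℤ) ≤ ((B * x ^ d : ℕ) : ℤ) := by exact_mod_cast ha.2.trans hA
      have h7 : (k : ℤ) = ((B * x ^ d : ℕ) : ℤ) + ((cf f * x ^ d : ℕ) : ℤ) := by
        rw [hk, hK0]; push_cast; ring
      omega
    set z : ℤ := (a : ℤ) + σ * f.eval (n : ℤ) with hz'
    unfold pv hv
    by_cases hp : z.toNat.Prime
    · by_cases hz2 : z.toNat ^ 2 ≤ k
      · have h8 : z.toNat ∉ PP k := by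
          intro h9
          rw [PP, mem_filter] at h9
          have := h9.2.2
          omega
        have h9 : (if z.toNat.Prime ∧ z.toNat ^ 2 ≤ k then (1 : ℝ) else 0) = 1 := if_pos ⟨hp, hz2⟩
        rw [h9, if_pos hp, if_neg h8, sub_zero]
        exact hh _
      · have h8 : z.toNat ∈ PP k := by
          rw [PP, mem_filter, mem_Icc]
          exact ⟨⟨hp.one_lt.le, by omega⟩, hp, by omega⟩
        rw [if_pos hp, if_pos h8, sub_self, abs_zero]
        split_ifs <;> norm_num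
    · have h8 : z.toNat ∉ PP k := by
        intro h9
        rw [PP, mem_filter] at h9
        exact hp h9.2.1
      rw [if_neg hp, if_neg h8, sub_self, abs_zero]
      split_ifs <;> norm_num
  have hE1 : (#((Icc 1 A).filter fun a : ℕ => ε / 2 * (x / Real.log x) ≤
      |∑ n ∈ Icc 1 x, hv h k ((a : ℤ) + σ * f.eval (n : ℤ))|) : ℝ) ≤ ε / 2 * (x : ℝ) ^ d := by
    refine (markov (Icc 1 A) (fun a => (∑ n ∈ Icc 1 x, hv h k ((a : ℤ) + σ * f.eval (n : ℤ))) ^ 2)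
      (fun _ _ => sq_nonneg _) ((ε / 2 * (x / Real.log x)) ^ 2) _ (by positivity) hl2 _ ?_).trans ?_
    · intro a _ ha
      rw [← sq_abs (∑ n ∈ Icc 1 x, hv h k ((a : ℤ) + σ * f.eval (n : ℤ)))]
      exact pow_le_pow_left₀ (by positivity) ha 2
    · apply le_of_eq
      field_simp
      ring
  have hE2 : (#((Icc 1 A).filter fun a : ℕ => ε / 2 * (x / Real.log x) ≤ N a) : ℝ) ≤ ε / 2 * (x : ℝ) ^ d := by
    refine (markov (Icc 1 A) N (fun _ _ => Nat.cast_nonneg _) (ε / 2 * (x / Real.log x)) _ (by positivity)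
      (small_primes (fun n => σ * f.eval (n : ℤ)) k A x) _ (fun a _ ha => ha)).trans ?_
    rw [div_le_iff₀ (by positivity)]
    have e1 : Real.sqrt k = Real.sqrt K0 * Real.sqrt ((x : ℝ) ^ d) := by
      rw [hk]; push_cast
      rw [Real.sqrt_mul (Nat.cast_nonneg _)]
    have e2 : Real.sqrt x ≤ Real.sqrt ((x : ℝ) ^ d) := by
      apply Real.sqrt_le_sqrt
      calc (x : ℝ) = x ^ 1 := by ring
        _ ≤ _ := pow_le_pow_right₀ (by exact_mod_cast (by omega : 1 ≤ x)) hd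
    have e3 : Real.sqrt ((x : ℝ) ^ d) * Real.sqrt ((x : ℝ) ^ d) = (x : ℝ) ^ d := Real.mul_self_sqrt (by positivity)
    have e4 : Real.log x * Real.sqrt K0 * Real.sqrt ((x : ℝ) ^ d) ≤ ε ^ 2 / 4 * (x : ℝ) ^ d := by
      calc Real.log x * Real.sqrt K0 * Real.sqrt ((x : ℝ) ^ d) ≤ ε ^ 2 / 4 * Real.sqrt x * Real.sqrt ((x : ℝ) ^ d) :=
            mul_le_mul_of_nonneg_right hls (Real.sqrt_nonneg _)
        _ ≤ ε ^ 2 / 4 * Real.sqrt ((x : ℝ) ^ d) * Real.sqrt ((x : ℝ) ^ d) := by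
            apply mul_le_mul_of_nonneg_right _ (Real.sqrt_nonneg _)
            exact mul_le_mul_of_nonneg_left e2 (by positivity)
        _ = _ := by rw [mul_assoc, e3]
    rw [e1]
    have e5 : (x : ℝ) * (Real.sqrt K0 * Real.sqrt ((x : ℝ) ^ d)) =
        (Real.log x * Real.sqrt K0 * Real.sqrt ((x : ℝ) ^ d)) * (x / Real.log x) := by
      field_simp
    have e6 : ε / 2 * (x : ℝ) ^ d * (ε / 2 * (x / Real.log x)) = (ε ^ 2 / 4 * (x : ℝ) ^ d) * (x / Real.log x) := by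
      ring
    rw [e5, e6]
    exact mul_le_mul_of_nonneg_right e4 hX.le
  have hsub : (Icc 1 A).filter (fun a : ℕ => ε * (x / Real.log x) <
      |∑ n ∈ Icc 1 x, pv h ((a : ℤ) + σ * f.eval (n : ℤ))|) ⊆
      ((Icc 1 A).filter fun a : ℕ => ε / 2 * (x / Real.log x) ≤
        |∑ n ∈ Icc 1 x, hv h k ((a : ℤ) + σ * f.eval (n : ℤ))|) ∪
      ((Icc 1 A).filter fun a : ℕ => ε / 2 * (x / Real.log x) ≤ N a) := by
    intro a ha
    rw [mem_filter] at ha
    rw [mem_union, mem_filter, mem_filter]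
    by_contra hcon
    push Not at hcon
    have h3 := hcon.1 ha.1
    have h4 := hcon.2 ha.1
    have h5 := hdiff a ha.1
    have h6 := ha.2
    linarith
  have hc : (#((Icc 1 A).filter (fun a : ℕ => ε * (x / Real.log x) <
      |∑ n ∈ Icc 1 x, pv h ((a : ℤ) + σ * f.eval (n : ℤ))|)) : ℝ) ≤ _ :=
    Nat.cast_le.2 ((card_le_card hsub).trans (card_union_le _ _))
  refine hc.trans ?_
  push_cast
  linarith

end Pool.Agent.U637.TP
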